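import Mathlib

/-!
# MP_5790d7_co: a countable chain with doubling initial intervals that is not unsecable.

The chain is `A = ω + (⋯ + ω + ω + ω)`.
-/

namespace Pool.Agent.Results.MP_5790d7_co.CountableCounterexample

open OrderDual

/-- `A ≤ B` for chains: `A` embeds in `B`. -/
def Emb (A B : Type) [LinearOrder A] [LinearOrder B] : Prop := Nonempty (A ↪o B)

/-- `A < B` for chains: `A ≤ B` and not `B ≤ A`. -/
def SEmb (A B : Type) [LinearOrder A] [LinearOrder B] : Prop := Emb A B ∧ ¬ Emb B A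

/-- `A` satisfies: `X + X < A` for every initial interval `X` of `A` with `X < A`. -/
def Doubling (A : Type) [LinearOrder A] : Prop :=
  ∀ X : Set A, IsLowerSet X → SEmb X A → SEmb (X ⊕ₗ X) A

/-- `A` is unsecable: for every decomposition of `A` into an initial interval `B` and its
complementary final interval `Bᶜ`, `A ≤ B` or `A ≤ Bᶜ`. -/
def Unsecable (A : Type) [LinearOrder A] : Prop :=
  ∀ B : Set A, IsLowerSet B → Emb A B ∨ Emb A (Bᶜ : Set A)

/-- `K = ⋯ + ω + ω + ω`. -/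
abbrev K : Type := ℕᵒᵈ ×ₗ ℕ

/-- `A = ω + K`. -/
abbrev A : Type := ℕ ⊕ₗ K

/-- The element `(p, q)` of `K`, viewed in `A`: `q`-th element of the `p`-th block from the end. -/
def kk (p q : ℕ) : A := toLex (Sum.inr (toLex (toDual p, q)))

/-- The element `n` of the first `ω`. -/
def oo (n : ℕ) : A := toLex (Sum.inl n)

lemma kk_lt {p q p' q' : ℕ} : kk p q < kk p' q' ↔ p' < p ∨ (p = p' ∧ q < q') := by
  simp [kk, Sum.Lex.inr_lt_inr_iff, Prod.Lex.lt_iff]

lemma oo_lt {m n : ℕ} : oo m < oo n ↔ m < n := by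
  simp [oo]

lemma oo_lt_kk {m p q : ℕ} : oo m < kk p q := by
  simp [oo, kk, Sum.Lex.inl_lt_inr]

lemma cases_A (a : A) : (∃ n, a = oo n) ∨ ∃ p q, a = kk p q := by
  rcases h : ofLex a with n | k
  · left; exact ⟨n, by rw [oo, ← h]; rfl⟩
  · right
    refine ⟨ofDual (ofLex k).1, (ofLex k).2, ?_⟩
    rw [kk]
    have : (toLex (toDual (ofDual (ofLex k).1), (ofLex k).2) : K) = k := rfl
    rw [this, ← h]
    rfl

/-- A map out of `A` given by its values on `oo` and `kk`. -/
def mk {W : Type} (f : ℕ → W) (g : ℕ → ℕ → W) : A → W :=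
  fun a => Sum.elim f (fun k : K => g (ofDual (ofLex k).1) (ofLex k).2) (ofLex a)

lemma mk_oo {W : Type} (f : ℕ → W) (g : ℕ → ℕ → W) (n : ℕ) : mk f g (oo n) = f n := rfl
lemma mk_kk {W : Type} (f : ℕ → W) (g : ℕ → ℕ → W) (p q : ℕ) : mk f g (kk p q) = g p q := rfl

lemma not_emb_wf (W : Type) [LinearOrder W] [WellFoundedLT W] : ¬ Emb A W := by
  rintro ⟨f⟩
  refine not_strictAnti_of_wellFoundedLT (fun n : ℕ => f (kk n 0)) ?_
  intro a b hab
  exact f.strictMono (kk_lt.mpr (Or.inl hab))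

lemma not_emb_of_map (Y W : Type) [LinearOrder Y] [LinearOrder W] [WellFoundedLT W]
    (i : Y → W) (hi : StrictMono i) : ¬ Emb A Y := by
  rintro ⟨f⟩
  exact not_emb_wf W ⟨OrderEmbedding.ofStrictMono (i ∘ f) (hi.comp f.strictMono)⟩

/-- An initial interval of `A` meeting `K` embeds `A`. -/
lemma emb_of_meets (X : Set A) (hX : IsLowerSet X) (m j : ℕ) (h : kk m j ∈ X) : Emb A X := by
  have h1 : ∀ n, oo n ∈ X := fun n => hX (oo_lt_kk).le h
  have h2 : ∀ p q, kk (m + 1 + p) q ∈ X := fun p q =>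
    hX (kk_lt.mpr (Or.inl (by omega))).le h
  refine ⟨OrderEmbedding.ofStrictMono
    (mk (fun n => (⟨oo n, h1 n⟩ : X)) (fun p q => ⟨kk (m + 1 + p) q, h2 p q⟩)) ?_⟩
  intro a b hab
  rcases cases_A a with ⟨n, rfl⟩ | ⟨p, q, rfl⟩ <;> rcases cases_A b with ⟨n', rfl⟩ | ⟨p', q', rfl⟩
  · rw [mk_oo, mk_oo, Subtype.mk_lt_mk]
    exact hab
  · rw [mk_oo, mk_kk, Subtype.mk_lt_mk]
    exact oo_lt_kk
  · exact absurd hab (not_lt.mpr (oo_lt_kk).le)
  · rw [mk_kk, mk_kk, Subtype.mk_lt_mk, kk_lt]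
    rw [kk_lt] at hab
    omega

/-- The index in the first `ω`. -/
def idx (a : A) : ℕ := mk id (fun _ _ => 0) a

lemma doubling : Doubling A := by
  intro X hX hXA
  have hno : ∀ m j, kk m j ∉ X := fun m j h => hXA.2 (emb_of_meets X hX m j h)
  have hoo : ∀ a ∈ X, a = oo (idx a) := by
    intro a ha
    rcases cases_A a with ⟨n, rfl⟩ | ⟨p, q, rfl⟩
    · rfl
    · exact absurd ha (hno p q)
  have hidx : ∀ a ∈ X, ∀ b ∈ X, a < b → idx a < idx b := by
    intro a ha b hb hab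
    rw [hoo a ha, hoo b hb, oo_lt] at hab
    exact hab
  constructor
  · -- embed X + X in K
    refine ⟨OrderEmbedding.ofStrictMono
      (fun s : X ⊕ₗ X => Sum.elim (fun x : X => kk 1 (idx x)) (fun x : X => kk 0 (idx x))
        (ofLex s)) ?_⟩
    intro s t hst
    induction s using Lex.rec with | h s => ?_
    induction t using Lex.rec with | h t => ?_
    rcases s with s | s <;> rcases t with t | t
    · rw [Sum.Lex.inl_lt_inl_iff] at hst
      change kk 1 _ < kk 1 _
      rw [kk_lt]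
      exact Or.inr ⟨rfl, hidx _ s.2 _ t.2 hst⟩
    · change kk 1 _ < kk 0 _
      rw [kk_lt]
      exact Or.inl (by norm_num)
    · exact absurd hst Sum.Lex.not_inr_lt_inl
    · rw [Sum.Lex.inr_lt_inr_iff] at hst
      change kk 0 _ < kk 0 _
      rw [kk_lt]
      exact Or.inr ⟨rfl, hidx _ s.2 _ t.2 hst⟩
  · refine not_emb_of_map (X ⊕ₗ X) (ℕ ×ₗ ℕ)
      (fun s : X ⊕ₗ X => Sum.elim (fun x : X => toLex (0, idx x)) (fun x : X => toLex (1, idx x))
        (ofLex s)) ?_
    intro s t hst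
    induction s using Lex.rec with | h s => ?_
    induction t using Lex.rec with | h t => ?_
    rcases s with s | s <;> rcases t with t | t
    · rw [Sum.Lex.inl_lt_inl_iff] at hst
      change (toLex (0, _) : ℕ ×ₗ ℕ) < toLex (0, _)
      rw [Prod.Lex.toLex_lt_toLex]
      exact Or.inr ⟨rfl, hidx _ s.2 _ t.2 hst⟩
    · change (toLex (0, _) : ℕ ×ₗ ℕ) < toLex (1, _)
      rw [Prod.Lex.toLex_lt_toLex]
      exact Or.inl (by norm_num)
    · exact absurd hst Sum.Lex.not_inr_lt_inl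
    · rw [Sum.Lex.inr_lt_inr_iff] at hst
      change (toLex (1, _) : ℕ ×ₗ ℕ) < toLex (1, _)
      rw [Prod.Lex.toLex_lt_toLex]
      exact Or.inr ⟨rfl, hidx _ s.2 _ t.2 hst⟩

lemma not_unsecable : ¬ Unsecable A := by
  intro h
  set B : Set A := Set.range oo with hB
  have hBl : IsLowerSet B := by
    rintro a b hab ⟨n, rfl⟩
    rcases cases_A b with ⟨m, rfl⟩ | ⟨p, q, rfl⟩
    · exact ⟨m, rfl⟩
    · exact absurd (lt_of_lt_of_le (oo_lt_kk) hab) (lt_irrefl _)
  rcases h B hBl with h1 | h1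
  · -- `A ≤ ω` fails
    refine not_emb_of_map B ℕ (fun x => idx x.1) ?_ h1
    rintro ⟨_, n, rfl⟩ ⟨_, m, rfl⟩ hab
    exact oo_lt.mp hab
  · -- `A ≤ K` fails
    obtain ⟨f⟩ := h1
    have hk : ∀ a : A, ∃ p q, (f a).1 = kk p q := by
      intro a
      rcases cases_A (f a).1 with ⟨n, hn⟩ | h
      · exact absurd ⟨n, hn.symm⟩ (f a).2
      · exact h
    choose P Q hPQ using hk
    have hlt : ∀ a b : A, a < b → P b < P a ∨ (P a = P b ∧ Q a < Q b) := by
      intro a b hab
      have h2 : (f a).1 < (f b).1 := f.strictMono hab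
      rw [hPQ a, hPQ b, kk_lt] at h2
      exact h2
    have hbound : ∀ n, P (kk n 0) ≤ P (oo 0) := by
      intro n
      rcases hlt (oo 0) (kk n 0) oo_lt_kk with h2 | h2
      · exact h2.le
      · exact h2.1.ge
    refine not_strictAnti_of_wellFoundedLT
      (fun n : ℕ => (toLex (P (oo 0) - P (kk n 0), Q (kk n 0)) : ℕ ×ₗ ℕ)) ?_
    intro m n hmn
    change (toLex _ : ℕ ×ₗ ℕ) < toLex _
    rw [Prod.Lex.toLex_lt_toLex]
    have h3 := hlt (kk n 0) (kk m 0) (kk_lt.mpr (Or.inl hmn))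
    have h4 := hbound m
    have h5 := hbound n
    dsimp only
    omega

/-- There is a countable chain `A` with `X + X < A` for every initial interval `X < A`, which is
not unsecable. -/
theorem result : ∃ (A : Type) (_ : LinearOrder A), Countable A ∧ Doubling A ∧ ¬ Unsecable A :=
  ⟨A, inferInstance, inferInstanceAs (Countable (ℕ ⊕ (ℕ × ℕ))), doubling, not_unsecable⟩

end Pool.Agent.Results.MP_5790d7_co.CountableCounterexample
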